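import Pool.Agent.X250.RF.Fin

/-!
# Zero in the spectrum for doubles of aspherical manifolds with boundary

Let `N` be a compact aspherical manifold with fundamental group `π` and nonempty boundary, such that the components of
the boundary are aspherical and `π_1`-injective.  The double `M` of `N` is a closed aspherical manifold.  Let `V` be the
set of components of the boundary of the universal cover of `N`; the group `π` acts on `V` with finitely many orbits, one
for each component `∂_j N`, and the stabilizers are the groups `π_1(∂_j N)`.  The group `P` generated by the lifts of the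
reflection of `M` and by `π_1(M)` is `W ⋊ π`, where `W` is the free product of groups of order two indexed by `V`, and
`π_1(M)` has index two in `P`.

We show that `H_i(M; C*_r(π_1(M))) ≠ 0` for some `i ≤ dim M` if one of the Euler characteristics `χ(N)`, `χ(∂_j N)` is
not zero; this is equivalent to zero being in the spectrum of the Laplacian on the `p`-forms of the universal cover of
`M` for some `p`.  The case of interest is that the dimension is odd and `χ(∂_j N) ≠ 0` for some `j`; then `χ(M) = 0`, and if the
Singer conjecture holds for `M` then its `ℓ²`-Betti numbers do not help.  Nothing else is assumed about `N`.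

The theorem is about all subgroups `Γ` of finite index of `P`; closed aspherical manifolds (or finite aspherical
complexes) with fundamental group `Γ` enter through the cellular chain complexes of their universal covers, which are
finite free resolutions of the trivial `ℤ[Γ]`-module `ℤ` (`Pool.Agent.H919R4.ZS.FinRes`).  The reduced group `C*`-algebra
and the homology with coefficients in it are defined in `Pool.Agent.H919R4.ZS.Defs`.  The group `W` is the right-angled
Coxeter group of the graph without edges, defined in `Pool.Agent.W907.SG.Defs`.

The idea of the proof: choose an orbit `O` of `V`.  The regular representation of `P` is a member, for `x = 1/2`, of a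
norm continuous family of representations of the group algebra on `ℓ²(P)` for which the delta function at `1` gives a
trace, under which the idempotent `(1 - s) / 2` has trace `x` for the reflections `s` in `O`, and trace `1/2` for the other
ones.  If the homology vanishes, then the Euler characteristic of `P` with respect to these traces is zero for `x` near
`1/2`.  It is `χ(N)` minus the sum of the `χ(∂_j N)`, weighted by `x` or by `1/2`.
-/

set_option autoImplicit false

namespace Pool.Agent.Results.MP_058ed1_gt.Doubles

open Pool.Agent.W907.SG (W cox)
open Pool.Agent.H919R4.ZS (FinRes toRed)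
open Pool.Agent.X250.RF (chi)

/-- Let `π` be a group acting on a set `V` with finitely many orbits, represented by the elements of `F`.  Suppose that
`π` and the stabilizers of the elements of `F` have finite free resolutions `Y` and `Z u`, one of which has nonzero Euler
characteristic.  Let `W` be the free product of groups of order two indexed by `V`.  The group `π` acts on `W`; let `Γ` be a
subgroup of finite index of `W ⋊ π`, and let `X` be a finite free resolution of `ℤ` over `ℤ[Γ]`.  Then the homology of
`X` with coefficients in the reduced group `C*`-algebra of `Γ` does not vanish in some degree `i` which is at most the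
length of `X`. -/
theorem result (π : Type) [Group π] (Y : FinRes π) (V : Type) [MulAction π V] (F : Finset V)
    (hF : ∀ v : V, ∃ g : π, ∃ u ∈ F, g • u = v)
    (hF' : ∀ u ∈ F, ∀ u' ∈ F, ∀ g : π, g • u = u' → u = u')
    (Z : ∀ u : F, FinRes (MulAction.stabilizer π (u : V)))
    (hχ : chi Y ≠ 0 ∨ ∃ u, chi (Z u) ≠ 0) :
    ∃ φ : π →* MulAut (W (⊥ : SimpleGraph V)),
      (∀ (g : π) (v : V), φ g ((cox ⊥).simple v) = (cox ⊥).simple (g • v)) ∧
      ∀ (Γ : Subgroup (W (⊥ : SimpleGraph V) ⋊[φ] π)) [Γ.FiniteIndex] (X : FinRes Γ),
        ∃ i ≤ X.len, Nontrivial (X.homology (toRed Γ) i) := by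
  obtain ⟨φ, hφ⟩ := Pool.Agent.X250.RT.exists_phi (G := (⊥ : SimpleGraph V)) (π := π) fun g u v h => h.elim
  refine ⟨φ, hφ, fun Γ _ X => ?_⟩
  by_contra hcon
  push Not at hcon
  refine Pool.Agent.X250.RF.main ⟨F, hF, hF', Z⟩ Y hχ φ hφ Γ X fun i => ?_
  by_cases hi : i ≤ X.len
  · exact hcon i hi
  · have h1 : X.n i = 0 := X.n_eq_zero i (not_le.1 hi)
    have h2 : IsEmpty (Fin (X.n i)) := by
      rw [h1]
      infer_instance
    have h3 : Subsingleton (X.cyc (toRed Γ) i) := ⟨fun a b => Subtype.ext (funext fun j => h2.elim j)⟩
    refine ⟨fun a b => ?_⟩
    obtain ⟨a, rfl⟩ := Submodule.Quotient.mk_surjective _ a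
    obtain ⟨b, rfl⟩ := Submodule.Quotient.mk_surjective _ b
    rw [h3.elim a b]

end Pool.Agent.Results.MP_058ed1_gt.Doubles
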