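import Pool.Agent.X270.NT.CxB

/-!
The zero-in-the-spectrum conjecture and the exotic group `C*`-algebras `C*_{ℓ^q}(π)`, `q > 2`
(Brown and Guentner), which lie between the full and the reduced group `C*`-algebra: vanishing of
the homology with coefficients in `C*_r(π)` up to some degree is equivalent to vanishing for
`C*_{ℓ^q}(π)` for some `q > 2`. For a closed aspherical Riemannian manifold `M` with fundamental
group `π`, zero is in the spectrum of the Laplacian on `p`-forms on the universal covering for
some `p` if and only if the homology of `M` with coefficients in `C*_r(π)` is not zero. A closed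
aspherical manifold enters through the cellular chain complex of the universal covering of a
homotopy equivalent finite CW complex, which is a finite free resolution of the trivial
`ℤ[π]`-module `ℤ` (`Pool.Agent.H919R4.ZS.FinRes`). The algebras `C*_{ℓ^q}(G)` are defined in
`Pool.Agent.X270.NT.StmtC`.
-/

set_option autoImplicit false

namespace Pool.Agent.Results.MP_058ed1_gt.ExoticCompletions

open Pool.Agent.H919R4.ZS (FinRes toRed)
open Pool.Agent.X270.NT.C (toLq)

/-- Let `X` be a finite free resolution of `ℤ` over `ℤ[G]` and let `p : ℕ`. The homology of `X`
with coefficients in the reduced group `C*`-algebra `C*_r(G)` does not vanish in some degree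
`i ≤ p` if and only if for every real `q > 2` the homology of `X` with coefficients in the
`C*`-algebra `C*_{ℓ^q}(G)` does not vanish in some degree `i ≤ p`. Here `C*_{ℓ^q}(G)` is the
completion of `ℂ[G]` for the norm `sup ‖π(x)‖`, where `π` runs through the unitary representations
of `G` with a total set of vectors `v` such that `∑_g |⟨π(g) v, v⟩|^q < ∞`. -/
theorem result (G : Type) [Group G] (X : FinRes G) (p : ℕ) :
    (∃ i ≤ p, Nontrivial (X.homology (toRed G) i)) ↔
      ∀ q : ℝ, 2 < q → ∃ i ≤ p, Nontrivial (X.homology (toLq G q) i) :=
  Pool.Agent.X270.NT.C.main_iff X p

end Pool.Agent.Results.MP_058ed1_gt.ExoticCompletions
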